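import Mathlib

/-!
# OLB, part GD: Galois descent for finite dimensional subspaces of `I → K`
-/

set_option autoImplicit false

namespace Pool.Agent.Helper75.OLB

theorem descent {K₀ K : Type} [Field K₀] [Field K] [Algebra K₀ K]
    (hfix : ∀ c : K, (∀ σ : K ≃ₐ[K₀] K, σ c = c) → c ∈ Set.range (algebraMap K₀ K)) {I : Type}
    (U : Submodule K (I → K)) [Module.Finite K U]
    (hU : ∀ σ : K ≃ₐ[K₀] K, ∀ u ∈ U, (fun i => σ (u i)) ∈ U) :
    U ≤ Submodule.span K {u | u ∈ U ∧ ∃ v : I → K₀, u = fun i => algebraMap K₀ K (v i)} := by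
  classical
  let ev : I → Module.Dual K U := fun i => (LinearMap.proj i).comp U.subtype
  have hev : ∀ (i : I) (u : U), ev i u = (u : I → K) i := fun i u => rfl
  have hspan : Submodule.span K (Set.range ev) = ⊤ := by
    have h1 : (Submodule.span K (Set.range ev)).dualCoannihilator = ⊥ := by
      rw [eq_bot_iff]
      intro u hu
      rw [Submodule.mem_dualCoannihilator] at hu
      rw [Submodule.mem_bot]
      apply Subtype.ext
      funext i
      exact hu (ev i) (Submodule.subset_span ⟨i, rfl⟩)
    have h2 := Subspace.dualCoannihilator_dualAnnihilator_eq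
      (W := Submodule.span K (Set.range ev))
    rw [h1, Submodule.dualAnnihilator_bot] at h2
    exact h2.symm
  obtain ⟨κ, a, -, hsa, hli⟩ := exists_linearIndependent' K ev
  rw [hspan] at hsa
  let b : Module.Basis κ K (Module.Dual K U) := Module.Basis.mk hli hsa.ge
  have hb : ∀ k, b k = ev (a k) := fun k => Module.Basis.mk_apply hli hsa.ge k
  haveI : Finite κ := Module.Finite.finite_basis b
  haveI : Fintype κ := Fintype.ofFinite κ
  have key : ∀ w : U, (∀ k, (w : I → K) (a k) = 0) → w = 0 := by
    intro w hw
    have h1 : Module.Dual.eval K U w = 0 := by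
      apply b.ext
      intro k
      rw [Module.Dual.eval_apply, hb, hev, hw k]
      rfl
    rw [← Module.forall_dual_apply_eq_zero_iff K]
    intro φ
    have := LinearMap.congr_fun h1 φ
    simpa using this
  let e : κ → U := fun j => (Module.evalEquiv K U).symm (b.dualBasis j)
  have he : ∀ j k, (e j : I → K) (a k) = if k = j then 1 else 0 := by
    intro j k
    rw [← hev, ← hb]
    have h1 : Module.evalEquiv K U (e j) = b.dualBasis j := by simp [e]
    have h2 : b k (e j) = Module.evalEquiv K U (e j) (b k) := by simp
    rw [h2, h1, Module.Basis.dualBasis_apply_self]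
  have hfx : ∀ j, ∃ v : I → K₀, (e j : I → K) = fun i => algebraMap K₀ K (v i) := by
    intro j
    have h1 : ∀ i, (e j : I → K) i ∈ Set.range (algebraMap K₀ K) := by
      intro i
      apply hfix
      intro σ
      have h2 := key (⟨fun i => σ ((e j : I → K) i), hU σ _ (e j).2⟩ - e j) (by
        intro k
        rw [Submodule.coe_sub, Pi.sub_apply]
        change σ ((e j : I → K) (a k)) - (e j : I → K) (a k) = 0
        rw [he]
        split_ifs <;> simp)
      have h3 := congrArg (fun w : U => (w : I → K) i) h2
      change σ ((e j : I → K) i) - (e j : I → K) i = 0 at h3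
      exact sub_eq_zero.1 h3
    choose v hv using h1
    exact ⟨v, funext fun i => (hv i).symm⟩
  intro u hu
  have h1 := key (⟨u, hu⟩ - ∑ j, u (a j) • e j) (by
    intro k
    rw [Submodule.coe_sub, Pi.sub_apply, Submodule.coe_sum, Finset.sum_apply]
    simp only [Submodule.coe_smul, Pi.smul_apply, he, smul_eq_mul, mul_ite, mul_one, mul_zero,
      Finset.sum_ite_eq, Finset.mem_univ, if_true, sub_self])
  have h2 : u = ∑ j, u (a j) • (e j : I → K) := by
    have h3 := congrArg (fun w : U => (w : I → K)) (sub_eq_zero.1 h1)
    simpa using h3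
  rw [h2]
  refine Submodule.sum_mem _ fun j _ => Submodule.smul_mem _ _ (Submodule.subset_span ?_)
  exact ⟨(e j).2, hfx j⟩

end Pool.Agent.Helper75.OLB
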